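import Mathlib

/-!
The additivity number of the family of sets of reals with the splitting property
`Split(Ω, Λ)` is at most the ultrafilter number.
-/

open Cardinal Set

namespace Pool.Agent.Results.MP_312f56_gt.AddLeU

/-- Relatively open subsets of `X`. -/
def RelOpen (X U : Set ℝ) : Prop := ∃ O : Set ℝ, IsOpen O ∧ U = O ∩ X

/-- Open covers of `X` (not containing `X`). -/
def OpenCover (X : Set ℝ) (𝒰 : Set (Set ℝ)) : Prop :=
  (∀ U ∈ 𝒰, RelOpen X U) ∧ ⋃₀ 𝒰 = X ∧ X ∉ 𝒰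

/-- Open large covers. -/
def Large (X : Set ℝ) (𝒰 : Set (Set ℝ)) : Prop :=
  OpenCover X 𝒰 ∧ ∀ x ∈ X, {U | U ∈ 𝒰 ∧ x ∈ U}.Infinite

/-- Open `ω`-covers. -/
def OmegaCover (X : Set ℝ) (𝒰 : Set (Set ℝ)) : Prop :=
  OpenCover X 𝒰 ∧ ∀ F : Set ℝ, F ⊆ X → F.Finite → ∃ U ∈ 𝒰, F ⊆ U

/-- The splitting property `Split(Ω, Λ)`. -/
def SplitOL (X : Set ℝ) : Prop :=
  ∀ 𝒰, OmegaCover X 𝒰 → ∃ 𝒱 𝒲 : Set (Set ℝ), 𝒱 ∪ 𝒲 = 𝒰 ∧ Disjoint 𝒱 𝒲 ∧
    (∃ 𝒱' ⊆ 𝒱, Large X 𝒱') ∧ ∃ 𝒲' ⊆ 𝒲, Large X 𝒲'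

/-- The additivity number of the family of sets of reals with `Split(Ω, Λ)`. -/
noncomputable def addS : Cardinal.{0} :=
  sInf {κ | ∃ ℱ : Set (Set ℝ), #ℱ = κ ∧ (∀ X ∈ ℱ, SplitOL X) ∧ ¬ SplitOL (⋃₀ ℱ)}

/-- `ℬ` is a base of the ultrafilter `p`. -/
def IsBase (p : Ultrafilter ℕ) (ℬ : Set (Set ℕ)) : Prop :=
  (∀ B ∈ ℬ, B ∈ p) ∧ ∀ A ∈ p, ∃ B ∈ ℬ, B ⊆ A

/-- The ultrafilter number: the least size of a base of a nonprincipal ultrafilter on `ℕ`. -/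
noncomputable def ultraNumber : Cardinal.{0} :=
  sInf {κ | ∃ (p : Ultrafilter ℕ) (ℬ : Set (Set ℕ)), (∀ n : ℕ, ({n} : Set ℕ) ∉ p) ∧ IsBase p ℬ ∧
    #ℬ = κ}

theorem split_singleton (x : ℝ) : SplitOL {x} := by
  rintro 𝒰 ⟨⟨h1, h2, h3⟩, _⟩
  exfalso
  have hx : x ∈ ⋃₀ 𝒰 := by rw [h2]; rfl
  obtain ⟨U, hU, hxU⟩ := hx
  obtain ⟨O, _, hO⟩ := h1 U hU
  apply h3
  have : U = {x} := by
    apply Subset.antisymm
    · rw [hO]; exact inter_subset_right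
    · exact singleton_subset_iff.mpr hxU
  rwa [this] at hU

open Classical in
/-- Characteristic sequence. -/
noncomputable def chi (B : Set ℕ) : ℕ → Bool := fun n => decide (n ∈ B)

theorem chi_true {B : Set ℕ} {n : ℕ} : chi B n = true ↔ n ∈ B := by simp [chi]

theorem chi_injective : Function.Injective chi := by
  intro A B h
  ext n
  rw [← chi_true, ← chi_true (B := B), h]

/-- A base of a nonprincipal ultrafilter gives a set of reals without the splitting property. -/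
theorem not_split {f : (ℕ → Bool) → ℝ} (hf : Continuous f) (hinj : Function.Injective f)
    {p : Ultrafilter ℕ} {ℬ : Set (Set ℕ)} (hp : ∀ n : ℕ, ({n} : Set ℕ) ∉ p) (hb : IsBase p ℬ) :
    ¬ SplitOL ((fun B => f (chi B)) '' ℬ) := by
  set X : Set ℝ := (fun B => f (chi B)) '' ℬ with hX
  have hinj' : Function.Injective (fun B : Set ℕ => f (chi B)) :=
    hinj.comp chi_injective
  let U : ℕ → Set ℝ := fun n => (f '' {s | s n = false})ᶜ ∩ X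
  have hU : ∀ n, ∀ B ∈ ℬ, f (chi B) ∈ U n ↔ n ∈ B := by
    intro n B hB
    constructor
    · rintro ⟨h1, _⟩
      by_contra hn
      apply h1
      refine ⟨chi B, ?_, rfl⟩
      simp [chi, hn]
    · intro hn
      refine ⟨?_, ⟨B, hB, rfl⟩⟩
      rintro ⟨s, hs, hfs⟩
      have h2 := hinj hfs
      rw [h2] at hs
      have h3 : chi B n = false := hs
      rw [chi_true.mpr hn] at h3
      exact absurd h3 (by simp)
  have hopen : ∀ n, RelOpen X (U n) := by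
    intro n
    refine ⟨(f '' {s | s n = false})ᶜ, ?_, rfl⟩
    have hcl : IsClosed {s : ℕ → Bool | s n = false} :=
      isClosed_eq (continuous_apply n) continuous_const
    exact (hcl.isCompact.image hf).isClosed.isOpen_compl
  have hmemX : ∀ x ∈ X, ∃ B ∈ ℬ, f (chi B) = x := fun x hx => hx
  -- every point misses some `U n` and finite sets are contained in some `U n`
  have hfin : ∀ F : Set ℝ, F ⊆ X → F.Finite → ∃ n, F ⊆ U n := by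
    intro F hFX hF
    have h1 : ∀ x : F, ∃ B ∈ ℬ, f (chi B) = x.1 := fun x => hmemX x.1 (hFX x.2)
    choose g hg1 hg2 using h1
    haveI := hF.to_subtype
    have h2 : (⋂ x : F, g x) ∈ p := by
      have := (Filter.iInter_mem (f := (p : Filter ℕ)) (s := g)).mpr (fun x => hb.1 _ (hg1 x))
      exact this
    obtain ⟨n, hn⟩ := p.nonempty_of_mem h2
    refine ⟨n, fun x hx => ?_⟩
    have h3 : f (chi (g ⟨x, hx⟩)) = x := hg2 ⟨x, hx⟩
    have h4 := (hU n _ (hg1 ⟨x, hx⟩)).mpr (mem_iInter.mp hn ⟨x, hx⟩)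
    rw [h3] at h4
    exact h4
  have hne : ∀ n, U n ≠ X := by
    intro n h
    have h1 : ({n} : Set ℕ)ᶜ ∈ p := Ultrafilter.compl_mem_iff_notMem.mpr (hp n)
    obtain ⟨B, hB, hBn⟩ := hb.2 _ h1
    have h2 : f (chi B) ∈ U n := by
      rw [h]; exact ⟨B, hB, rfl⟩
    have h3 := (hU n B hB).mp h2
    exact hBn h3 rfl
  intro hsplit
  have hcov : OmegaCover X (range U) := by
    refine ⟨⟨?_, ?_, ?_⟩, ?_⟩
    · rintro _ ⟨n, rfl⟩
      exact hopen n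
    · apply Subset.antisymm
      · rintro x ⟨_, ⟨n, rfl⟩, hx⟩
        exact hx.2
      · intro x hx
        obtain ⟨n, hn⟩ := hfin {x} (singleton_subset_iff.mpr hx) (finite_singleton x)
        exact ⟨U n, ⟨n, rfl⟩, hn rfl⟩
    · rintro ⟨n, hn⟩
      exact hne n hn
    · intro F hFX hF
      obtain ⟨n, hn⟩ := hfin F hFX hF
      exact ⟨U n, ⟨n, rfl⟩, hn⟩
  obtain ⟨𝒱, 𝒲, hVW, hdis, ⟨𝒱', hV', hVl⟩, ⟨𝒲', hW', hWl⟩⟩ := hsplit _ hcov
  -- one of the two index sets is in the ultrafilter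
  have key : ∀ 𝒜 𝒞 : Set (Set ℝ), Disjoint 𝒜 𝒞 → 𝒜 ∪ 𝒞 = range U →
      {n | U n ∈ 𝒜} ∈ p → ∀ 𝒞' ⊆ 𝒞, ¬ Large X 𝒞' := by
    intro 𝒜 𝒞 hd hr hA 𝒞' hC' hL
    obtain ⟨B, hB, hBA⟩ := hb.2 _ hA
    have h1 : f (chi B) ∈ ⋃₀ 𝒞' := by
      rw [hL.1.2.1]; exact ⟨B, hB, rfl⟩
    obtain ⟨C, hC, hxC⟩ := h1
    have hCC : C ∈ 𝒞 := hC' hC
    have h2 : C ∈ range U := by rw [← hr]; exact Or.inr hCC
    obtain ⟨n, rfl⟩ := h2
    have h3 : n ∈ B := (hU n B hB).mp hxC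
    have h4 : U n ∈ 𝒜 := hBA h3
    exact (disjoint_left.mp hd) h4 hCC
  by_cases hA : {n | U n ∈ 𝒱} ∈ p
  · exact key 𝒱 𝒲 hdis hVW hA 𝒲' hW' hWl
  · have hA' : {n | U n ∈ 𝒱}ᶜ ∈ p := Ultrafilter.compl_mem_iff_notMem.mpr hA
    have hA'' : {n | U n ∈ 𝒲} ∈ p := by
      filter_upwards [hA'] with n hn
      have h1 : U n ∈ 𝒱 ∪ 𝒲 := by rw [hVW]; exact ⟨n, rfl⟩
      rcases h1 with h1 | h1
      · exact absurd h1 hn
      · exact h1
    exact key 𝒲 𝒱 hdis.symm (by rw [union_comm]; exact hVW) hA'' 𝒱' hV' hVl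

/-- `add(Split(Ω, Λ)) ≤ 𝔲`; moreover there really is a family of at most `𝔲` sets with the
property whose union fails it. -/
theorem result : addS ≤ ultraNumber ∧
    ∃ ℱ : Set (Set ℝ), #ℱ ≤ ultraNumber ∧ (∀ X ∈ ℱ, SplitOL X) ∧ ¬ SplitOL (⋃₀ ℱ) := by
  have hne : {κ : Cardinal.{0} | ∃ (p : Ultrafilter ℕ) (ℬ : Set (Set ℕ)),
      (∀ n : ℕ, ({n} : Set ℕ) ∉ p) ∧ IsBase p ℬ ∧ #ℬ = κ}.Nonempty := by
    refine ⟨_, Filter.hyperfilter ℕ, {B | B ∈ Filter.hyperfilter ℕ}, ?_, ⟨fun B hB => hB,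
      fun A hA => ⟨A, hA, Subset.rfl⟩⟩, rfl⟩
    intro n
    exact (Set.finite_singleton n).notMem_hyperfilter
  obtain ⟨p, ℬ, hp, hb, hcard⟩ := csInf_mem hne
  obtain ⟨f, _, hf, hinj⟩ := (PerfectSpace.univ_perfect ℝ).exists_nat_bool_injection
    univ_nonempty
  have h1 := not_split hf hinj hp hb
  set X : Set ℝ := (fun B => f (chi B)) '' ℬ with hX
  have hs1 : ∀ Y ∈ (fun x : ℝ => ({x} : Set ℝ)) '' X, SplitOL Y := by
    rintro _ ⟨x, _, rfl⟩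
    exact split_singleton x
  have hs2 : ¬ SplitOL (⋃₀ ((fun x : ℝ => ({x} : Set ℝ)) '' X)) := by
    have : ⋃₀ ((fun x : ℝ => ({x} : Set ℝ)) '' X) = X := by
      ext x; simp
    rw [this]
    exact h1
  have h2 : addS ≤ #((fun x : ℝ => ({x} : Set ℝ)) '' X) := csInf_le' ⟨_, rfl, hs1, hs2⟩
  have h3 : ultraNumber = #ℬ := hcard.symm
  have h4 : #((fun x : ℝ => ({x} : Set ℝ)) '' X) ≤ ultraNumber := by
    rw [h3]
    exact mk_image_le.trans mk_image_le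
  exact ⟨h2.trans h4, _, h4, hs1, hs2⟩

end Pool.Agent.Results.MP_312f56_gt.AddLeU
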